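import Pool.Agent.helper77.MC.Spec

set_option autoImplicit false

namespace Pool.Agent.helper77.MC

open Finset Numbering

theorem BA_mem {β : Type} [Fintype β] (y : β → ℝ) (c : ℝ) (m : ℕ) (J : Finset β) :
    J ∈ fam y c m ↔ ∑ i ∈ J, y i = c ∧ #(J) ≤ m := by
  classical
  unfold fam
  simp

theorem BA_comp {β : Type} [Fintype β] [DecidableEq β] (y : β → ℝ) (c d : ℝ) (m : ℕ)
    (t : Finset β) (ht : t ∈ fam y (c + d) m) (J : Finset β) (hJ : ∑ i ∈ J, y i = c)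
    (hJt : J ⊆ t) : t \ J ∈ (fam y d (m + 1)).filter (fun J => J ⊆ t) := by
  rw [BA_mem] at ht
  rw [mem_filter, BA_mem]
  refine ⟨⟨?_, ?_⟩, sdiff_subset⟩
  · have h := sum_sdiff (f := y) hJt
    rw [hJ, ht.1] at h
    linarith
  · exact (card_le_card sdiff_subset).trans (ht.2.trans (Nat.le_succ m))

theorem BA (h1 : SG_stmt) (h2 : ST_stmt) (h3 : FA_stmt) : BA_stmt := by
  intro β _ _ y c₁ c₂ m w g hy hc₁ hc₂ hw hg hgg t ht
  have F1 := h3 β y c₁ (c₁ + c₂) (m + 1) m hy hc₁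
  have F2 := h3 β y c₂ (c₁ + c₂) (m + 1) m hy hc₂
  have F3 := h3 β y (c₁ + c₂) (c₁ + c₂) m m hy (add_pos hc₁ hc₂)
  have ht' := (BA_mem y (c₁ + c₂) m t).1 ht
  have S1 := h2 β t (fam y c₁ (m + 1)) g
    (fun J hJ => F1.2.2 (by linarith) J hJ t ht)
  have S2 := h2 β t (fam y c₂ (m + 1)) g
    (fun J hJ => F2.2.2 (by linarith) J hJ t ht)
  have S3 : ∀ f ∈ (prefixed t : Finset (Numbering β)),
      ∑ J ∈ fam y (c₁ + c₂) m, (if f ∈ prefixed J then g #(J) else 0) = g #(t) := by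
    intro f hf
    rw [sum_eq_single t]
    · rw [if_pos hf]
    · intro J hJ hJt
      rw [if_neg]
      intro hfJ
      apply hJt
      by_contra hne
      have hn1 : ¬ J ⊆ t := fun h => hne (F3.2.1 J hJ t ht h)
      have hn2 : ¬ t ⊆ J := fun h => hne (F3.2.1 t ht J hJ h).symm
      exact disjoint_left.1 (disjoint_prefixed_prefixed hn1 hn2) hfJ hf
    · intro h
      exact absurd ht h
  have S4 : ∑ J ∈ (fam y c₂ (m + 1)).filter (fun J => J ⊆ t), g #(J) * ((#(t)).choose #(J) : ℝ)⁻¹ =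
      ∑ J ∈ (fam y c₁ (m + 1)).filter (fun J => J ⊆ t), g (#(t) - #(J)) * ((#(t)).choose #(J) : ℝ)⁻¹ := by
    refine sum_nbij' (fun J => t \ J) (fun J => t \ J) ?_ ?_ ?_ ?_ ?_
    · intro J hJ
      rw [mem_filter, BA_mem] at hJ
      exact BA_comp y c₂ c₁ m t (by rw [add_comm]; exact ht) J hJ.1.1 hJ.2
    · intro J hJ
      rw [mem_filter, BA_mem] at hJ
      exact BA_comp y c₁ c₂ m t ht J hJ.1.1 hJ.2
    · intro J hJ
      rw [mem_filter] at hJ
      exact Finset.sdiff_sdiff_eq_self hJ.2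
    · intro J hJ
      rw [mem_filter] at hJ
      exact Finset.sdiff_sdiff_eq_self hJ.2
    · intro J hJ
      rw [mem_filter] at hJ
      have hc : #(J) ≤ #(t) := card_le_card hJ.2
      rw [card_sdiff_of_subset hJ.2, Nat.sub_sub_self hc, Nat.choose_symm hc]
  set B := (fam y c₁ (m + 1)).filter (fun J => J ⊆ t) with hB
  set N : ℝ := (#(prefixed t : Finset (Numbering β)) : ℝ) with hN
  have hNN : 0 ≤ N := by rw [hN]; exact Nat.cast_nonneg _
  have hSG : ∑ s ∈ B, ((#(t)).choose #(s) : ℝ)⁻¹ ≤ 1 := by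
    apply h1 β t B
    · intro s hs
      rw [hB, mem_filter] at hs
      exact hs.2
    · intro s hs s' hs' hss
      rw [hB, mem_filter] at hs hs'
      exact F1.2.1 s hs.1 s' hs'.1 hss
  have hgt : g #(t) ≤ w := hg _ (ht'.2.trans (Nat.le_succ m))
  have hle : ∑ J ∈ B, (g #(J) * ((#(t)).choose #(J) : ℝ)⁻¹ + g (#(t) - #(J)) * ((#(t)).choose #(J) : ℝ)⁻¹) ≤
      (2 * w - g #(t)) * ∑ s ∈ B, ((#(t)).choose #(s) : ℝ)⁻¹ := by
    rw [mul_sum]
    apply sum_le_sum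
    intro J hJ
    rw [hB, mem_filter] at hJ
    have hne := (F1.1 J hJ.1).1
    have hJm := (BA_mem y c₁ (m + 1) J).1 hJ.1
    have hlt : #(J) < #(t) := by
      apply card_lt_card
      refine hJ.2.ssubset_of_ne ?_
      intro h
      rw [h, ht'.1] at hJm
      linarith [hJm.1]
    have hh := hgg #(t) ht'.2 #(J) hne.card_pos hlt
    have hinv : (0 : ℝ) ≤ ((#(t)).choose #(J) : ℝ)⁻¹ := by positivity
    nlinarith [mul_le_mul_of_nonneg_right hh hinv]
  rw [sum_add_distrib, sum_add_distrib, S1, S2, S4, sum_congr rfl S3, sum_const, nsmul_eq_mul]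
  rw [sum_add_distrib] at hle
  have h5 : (2 * w - g #(t)) * ∑ s ∈ B, ((#(t)).choose #(s) : ℝ)⁻¹ ≤ (2 * w - g #(t)) * 1 :=
    mul_le_mul_of_nonneg_left hSG (by linarith)
  have h6 := mul_le_mul_of_nonneg_left (hle.trans h5) hNN
  rw [mul_add] at h6
  have h7 : N * ∑ J ∈ B, g #(J) * ((#(t)).choose #(J) : ℝ)⁻¹ + N * ∑ J ∈ B, g (#(t) - #(J)) * ((#(t)).choose #(J) : ℝ)⁻¹ + N * g #(t)
      ≤ 2 * w * N := by
    nlinarith [h6]
  exact h7

end Pool.Agent.helper77.MC
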